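import Mathlib.Tactic.IntervalCases
import Mathlib.Algebra.BigOperators.Field
import Mathlib.Topology.Sheaves.Presheaf
import Mathlib.Algebra.Order.Ring.Star
import Mathlib.Analysis.Complex.ExponentialBounds
import Mathlib.Combinatorics.SimpleGraph.DegreeSum
import Mathlib.Combinatorics.SimpleGraph.Paths
import Mathlib.RingTheory.PiTensorProduct
import Mathlib.Tactic.Polynomial.Basic

-- ======== part 0: formerly Pool.Agent.MP_94842c_co.Num
section MrgPart0

/-! The weights of the potential and the inequality for one step of a path. -/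

noncomputable section

namespace Pool.Agent.MP_94842c_co

open Finset

/-- the growth factor per unit of degree -/
def rr : ℝ := 1.1765

/-- the cost of one end of an additional parallel edge -/
def cc : ℝ := 1.03664

/-- the weight of a vertex of degree `d` -/
def gam : ℕ → ℝ
  | 0 => 1
  | 1 => 1
  | 2 => cc ^ 2
  | 3 => 1.46619
  | 4 => 1.86151
  | d + 5 => rr ^ (d + 5)

/-- the weight of the end of the path -/
def del : ℕ → ℝ
  | 0 => 0
  | 1 => 1
  | 2 => 1.4627
  | 3 => 1.7087
  | 4 => 1.8614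
  | 5 => 1.94
  | _ + 6 => 2.2

def lam : ℕ → ℝ
  | 0 => 1
  | 1 => 1.37
  | 2 => 2.72
  | 3 => 3.49
  | 4 => 4.083
  | 5 => 4.83
  | _ + 6 => 5.979

def th : ℕ → ℝ
  | 0 => 1
  | 1 => 1.982
  | 2 => 1.20898
  | 3 => 1.09992
  | 4 => 1.05506
  | 5 => 1.0168
  | _ + 6 => 1

/-- an upper bound for `del j / gam j` -/
def ab : ℕ → ℝ
  | 0 => 0
  | 1 => 1
  | 2 => 1.36113
  | 3 => 1.165402
  | 4 => 0.999941
  | _ + 5 => 0.861

theorem one_le_rr : 1 ≤ rr := by norm_num [rr]

theorem one_le_cc : 1 ≤ cc := by norm_num [cc]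

theorem gam_succ {d : ℕ} (h : 2 ≤ d) : rr * gam d ≤ gam (d + 1) := by
  match d, h with
  | 2, _ => norm_num [gam, rr, cc]
  | 3, _ => norm_num [gam, rr]
  | 4, _ => norm_num [gam, rr]
  | d + 5, _ => exact le_of_eq (by simp only [gam]; ring)

theorem one_le_gam (d : ℕ) : 1 ≤ gam d := by
  match d with
  | 0 | 1 | 2 | 3 | 4 => norm_num [gam, cc]
  | d + 5 => exact one_le_pow₀ one_le_rr

theorem gam_pos (d : ℕ) : 0 < gam d := one_pos.trans_le (one_le_gam d)

theorem gam_mono : Monotone gam := monotone_nat_of_le_succ fun d => by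
  match d with
  | 0 | 1 => norm_num [gam, cc]
  | d + 2 => exact (le_mul_of_one_le_left (gam_pos _).le one_le_rr).trans (gam_succ (by omega))

theorem gam_le (d : ℕ) : gam d ≤ rr ^ d := by
  match d with
  | 0 | 1 | 2 | 3 | 4 => norm_num [gam, cc, rr]
  | d + 5 => exact le_rfl

theorem del_mono : Monotone del := monotone_nat_of_le_succ fun d => by
  match d with
  | 0 | 1 | 2 | 3 | 4 | 5 => norm_num [del]
  | d + 6 => exact le_rfl

theorem del_nonneg (d : ℕ) : 0 ≤ del d := del_mono (Nat.zero_le d)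

theorem one_le_del {d : ℕ} (h : 1 ≤ d) : 1 ≤ del d := del_mono h

theorem del_le (d : ℕ) : del d ≤ 2.2 := del_mono (Nat.le_add_right d 6)

theorem del_le_ab (j : ℕ) : del j ≤ ab j * gam j := by
  match j with
  | 0 | 1 | 2 | 3 | 4 | 5 => norm_num [del, ab, gam, cc, rr]
  | j + 6 =>
    have := gam_mono (Nat.le_add_left 6 j)
    have h : gam 6 = rr ^ 6 := rfl
    simp only [del, ab]
    norm_num [rr] at h
    linarith

theorem ab_nonneg (j : ℕ) : 0 ≤ ab j := by
  match j with
  | 0 | 1 | 2 | 3 | 4 | _ + 5 => norm_num [ab]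

theorem ab_le (j : ℕ) : ab j ≤ 1.36113 := by
  match j with
  | 0 | 1 | 2 | 3 | 4 | _ + 5 => norm_num [ab]

theorem lam_ge {k : ℕ} (h : 1 ≤ k) : 1.37 ≤ lam k := by
  match k, h with
  | 1, _ | 2, _ | 3, _ | 4, _ | 5, _ | _ + 6, _ => norm_num [lam]

theorem th_pos (k : ℕ) : 0 < th k := by
  match k with
  | 0 | 1 | 2 | 3 | 4 | 5 | _ + 6 => norm_num [th]

theorem lam_th {k : ℕ} (h : 1 ≤ k) : lam k * th k ^ k ≤ 2.7182818 * del k := by
  match k, h with
  | 1, _ | 2, _ | 3, _ | 4, _ | 5, _ => norm_num [lam, th, del]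
  | k + 6, _ => simp only [lam, th, del]; norm_num

/-- a polynomial upper bound for the exponential function -/
def tp (x : ℝ) : ℝ := 1 + x + x ^ 2 / 2 + x ^ 3 / 6 + x ^ 4 / 24 + x ^ 5 / 120 + x ^ 6 / 720 +
  x ^ 7 / 5040 + x ^ 8 * 9 / 322560

theorem exp_le_tp {x : ℝ} (h0 : 0 ≤ x) (h1 : x ≤ 1) : Real.exp x ≤ tp x := by
  refine (Real.exp_bound' h0 h1 (n := 8) (by norm_num)).trans_eq ?_
  simp only [tp, sum_range_succ, range_zero, sum_empty, Nat.factorial]
  norm_num

theorem tp_pos {x : ℝ} (h0 : 0 ≤ x) : 0 < tp x := by unfold tp; positivity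

theorem small {k m j : ℕ} (hk : k ≤ 5) (h1 : 1 ≤ m) (hm : m ≤ k) (hj : j ≤ 5) (h3 : 3 ≤ j + m) :
    gam j * tp (ab j / lam k) ^ m ≤ th k ^ m * (gam (j + m) * cc ^ (2 * (m - 1))) := by
  interval_cases k <;> interval_cases m <;> interval_cases j <;>
    first | omega | norm_num [gam, tp, ab, lam, th, cc, rr]

theorem large_step (j : ℕ) : tp (ab j / 5.979) ≤ rr * cc ^ 2 := by
  match j with
  | 0 | 1 | 2 | 3 | 4 | _ + 5 => norm_num [tp, ab, cc, rr]

theorem large_base {m j : ℕ} (hj : j ≤ 5) (h1 : 1 ≤ m) (h : m = 1 ∨ j + m = 3) (h3 : 3 ≤ j + m) :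
    gam j * tp (ab j / 5.979) ^ m ≤ gam (j + m) * cc ^ (2 * (m - 1)) := by
  have : m ≤ 3 := by omega
  interval_cases m <;> interval_cases j <;>
    first | omega | norm_num [gam, tp, ab, cc, rr]

theorem large {m j : ℕ} (hj : j ≤ 5) (h1 : 1 ≤ m) (h3 : 3 ≤ j + m) :
    gam j * tp (ab j / 5.979) ^ m ≤ gam (j + m) * cc ^ (2 * (m - 1)) := by
  induction m, h1 using Nat.le_induction with
  | base => exact large_base hj le_rfl (Or.inl rfl) h3
  | succ m hm ih =>
    rcases (by omega : j + (m + 1) = 3 ∨ 3 ≤ j + m) with h | h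
    · exact large_base hj (by omega) (Or.inr h) h3
    · have a := gam_succ (d := j + m) (by omega)
      have b := gam_pos (j + m)
      have c := one_le_cc
      have d := one_le_rr
      have t := tp_pos (x := ab j / 5.979) (div_nonneg (ab_nonneg j) (by norm_num))
      calc _ = gam j * tp (ab j / 5.979) ^ m * tp (ab j / 5.979) := by ring
        _ ≤ gam (j + m) * cc ^ (2 * (m - 1)) * (rr * cc ^ 2) :=
          mul_le_mul (ih h) (large_step j) t.le (by positivity)
        _ = rr * gam (j + m) * cc ^ (2 * (m + 1 - 1)) := by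
          rw [show 2 * (m + 1 - 1) = 2 * (m - 1) + 2 by omega]; ring
        _ ≤ _ := by rw [← add_assoc]; gcongr

theorem upto5 {k m j : ℕ} (h1 : 1 ≤ m) (hm : m ≤ k) (hj : j ≤ 5) (h3 : 3 ≤ j + m) :
    gam j * tp (ab j / lam k) ^ m ≤ th k ^ m * (gam (j + m) * cc ^ (2 * (m - 1))) := by
  rcases (by omega : k ≤ 5 ∨ 6 ≤ k) with h | h
  · exact small h h1 hm hj h3
  · obtain ⟨k, rfl⟩ := Nat.exists_eq_add_of_le' h
    simpa only [lam, th, one_pow, one_mul] using large hj h1 h3

/-- the inequality for one neighbour -/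
theorem one_nb {k m j : ℕ} (hk : 1 ≤ k) (hm : m ≤ k) (h3 : 3 ≤ j + m) :
    gam j * Real.exp (m * ab j / lam k) ≤ th k ^ m * (gam (j + m) * cc ^ (2 * (m - 1))) := by
  rcases Nat.eq_zero_or_pos m with rfl | h1
  · simp
  have hl := lam_ge hk
  have h0 : 0 ≤ ab j / lam k := div_nonneg (ab_nonneg j) (by linarith)
  have he : Real.exp (m * ab j / lam k) ≤ tp (ab j / lam k) ^ m := by
    rw [mul_div_assoc, Real.exp_nat_mul]
    exact pow_le_pow_left₀ (Real.exp_pos _).le (exp_le_tp h0
      ((div_le_one (by linarith)).2 (by linarith [ab_le j]))) m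
  refine (mul_le_mul_of_nonneg_left he (gam_pos j).le).trans ?_
  rcases (by omega : j ≤ 5 ∨ 5 ≤ j) with h | h
  · exact upto5 h1 hm h h3
  · obtain ⟨j, rfl⟩ := Nat.exists_eq_add_of_le' h
    have := upto5 (j := 5) h1 hm le_rfl (by omega)
    have e1 : gam (j + 5) = rr ^ j * gam 5 := by simp only [gam]; ring
    have e2 : gam (j + 5 + m) = rr ^ j * gam (5 + m) := by
      rw [show j + 5 + m = j + m + 5 by ring, add_comm 5 m]; simp only [gam]; ring
    have e3 : ab (j + 5) = ab 5 := rfl
    have := mul_le_mul_of_nonneg_left this (pow_nonneg (zero_le_one.trans one_le_rr) j)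
    rw [e1, e2, e3]
    linarith

/-- the inequality for one step -/
theorem key {ι : Type} (S : Finset ι) (m j : ι → ℕ) (h3 : ∀ u ∈ S, 3 ≤ j u + m u) :
    (∑ u ∈ S, m u * ab (j u)) * ∏ u ∈ S, gam (j u) ≤
      del (∑ u ∈ S, m u) * ∏ u ∈ S, gam (j u + m u) * cc ^ (2 * (m u - 1)) := by
  obtain ⟨k, hk⟩ : ∃ k, k = ∑ u ∈ S, m u := ⟨_, rfl⟩
  rw [← hk]
  have c0 := one_le_cc
  have p0 : 0 ≤ ∏ u ∈ S, gam (j u + m u) * cc ^ (2 * (m u - 1)) :=
    prod_nonneg fun u _ => mul_nonneg (gam_pos _).le (by positivity)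
  rcases Nat.eq_zero_or_pos k with h0 | h0
  · rw [sum_eq_zero fun u hu => by rw [sum_eq_zero_iff.1 (hk.symm.trans h0) u hu]; simp, zero_mul]
    exact mul_nonneg (del_nonneg k) p0
  have hl : 0 < lam k := by linarith [lam_ge h0]
  have a1 : ∑ u ∈ S, m u * ab (j u) ≤
      lam k * (Real.exp (-1) * ∏ u ∈ S, Real.exp (m u * ab (j u) / lam k)) := by
    rw [← Real.exp_sum, ← Real.exp_add, ← sum_div, ← div_le_iff₀' hl]
    linarith [Real.add_one_le_exp (-1 + (∑ u ∈ S, m u * ab (j u)) / lam k)]
  have a2 : (∏ u ∈ S, Real.exp (m u * ab (j u) / lam k)) * ∏ u ∈ S, gam (j u) ≤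
      th k ^ k * ∏ u ∈ S, gam (j u + m u) * cc ^ (2 * (m u - 1)) := by
    nth_rw 3 [hk]
    rw [← prod_pow_eq_pow_sum, ← prod_mul_distrib, ← prod_mul_distrib]
    refine prod_le_prod (fun u _ => mul_nonneg (Real.exp_pos _).le (gam_pos _).le) fun u hu => ?_
    rw [mul_comm]
    exact one_nb h0 (hk ▸ single_le_sum (fun _ _ => Nat.zero_le _) hu) (h3 u hu)
  have a3 : Real.exp (-1) * (lam k * th k ^ k) ≤ del k := by
    rw [Real.exp_neg, inv_mul_le_iff₀ (Real.exp_pos 1)]
    exact (lam_th h0).trans (mul_le_mul_of_nonneg_right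
      (by linarith [Real.exp_one_gt_d9]) (del_nonneg k))
  calc _ ≤ lam k * (Real.exp (-1) * ∏ u ∈ S, Real.exp (m u * ab (j u) / lam k)) *
        ∏ u ∈ S, gam (j u) := mul_le_mul_of_nonneg_right a1 (prod_nonneg fun _ _ => (gam_pos _).le)
    _ = lam k * Real.exp (-1) * ((∏ u ∈ S, Real.exp (m u * ab (j u) / lam k)) *
        ∏ u ∈ S, gam (j u)) := by ring
    _ ≤ lam k * Real.exp (-1) * (th k ^ k * ∏ u ∈ S, gam (j u + m u) * cc ^ (2 * (m u - 1))) :=
        mul_le_mul_of_nonneg_left a2 (by positivity)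
    _ = Real.exp (-1) * (lam k * th k ^ k) * ∏ u ∈ S, gam (j u + m u) * cc ^ (2 * (m u - 1)) := by
        ring
    _ ≤ _ := mul_le_mul_of_nonneg_right a3 p0

end Pool.Agent.MP_94842c_co

end
end MrgPart0

-- ======== part 1: formerly Pool.Agent.MP_94842c_co.Paths
section MrgPart1

/-! Counting paths in multigraphs by a potential. -/

noncomputable section

namespace Pool.Agent.MP_94842c_co

open Finset

variable {V : Type} [DecidableEq V]

/-- the weighted number of paths from `s` to `t` with at most `n` edges through `U` -/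
def P (μ : V → V → ℕ) (t : V) : ℕ → Finset V → V → ℕ
  | 0, _, _ => 0
  | n + 1, U, s => ∑ u ∈ U, μ s u * if u = t then 1 else P μ t n (U.erase u) u

theorem P_mono {μ μ' : V → V → ℕ} (h : ∀ a b, μ a b ≤ μ' a b) (t : V) (n : ℕ) :
    ∀ (U : Finset V) (s : V), P μ t n U s ≤ P μ' t (n + 1) U s := by
  induction n with
  | zero => exact fun _ _ => Nat.zero_le _
  | succ n ih =>
    intro U s
    rw [P, P]
    refine sum_le_sum fun u _ => Nat.mul_le_mul (h _ _) ?_
    split_ifs
    · exact le_rfl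
    · exact ih _ _

/-- the multigraph in which the paths of length two through `v` are added as edges -/
def red (μ : V → V → ℕ) (v : V) (a b : V) : ℕ := μ a b + if a = b then 0 else μ a v * μ v b

theorem P_red (μ : V → V → ℕ) {t v : V} (hv : v ≠ t) (n : ℕ) : ∀ (U : Finset V) (s : V), v ∈ U →
    s ∉ U → P μ t n U s ≤ P (red μ v) t n (U.erase v) s := by
  induction n with
  | zero => exact fun _ _ _ _ => le_rfl
  | succ n ih =>
    intro U s hU hs
    rw [P, P, ← add_sum_erase _ _ hU, if_neg hv]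
    have h1 : μ s v * P μ t n (U.erase v) v ≤ ∑ u ∈ U.erase v, μ s v * μ v u *
        if u = t then 1 else P (red μ v) t n ((U.erase v).erase u) u := by
      cases n with
      | zero => simp [P]
      | succ n =>
        rw [P, mul_sum]
        refine sum_le_sum fun u _ => ?_
        rw [mul_assoc]
        refine Nat.mul_le_mul_left _ (Nat.mul_le_mul_left _ ?_)
        split_ifs
        · exact le_rfl
        · exact P_mono (fun _ _ => Nat.le_add_right _ _) t n _ _
    refine (Nat.add_le_add h1 (sum_le_sum (g := fun u => μ s u *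
      if u = t then 1 else P (red μ v) t n ((U.erase v).erase u) u) fun u hu => ?_)).trans ?_
    · refine Nat.mul_le_mul_left _ ?_
      split_ifs
      · exact le_rfl
      · rw [erase_right_comm]
        exact ih _ _ (mem_erase.2 ⟨(mem_erase.1 hu).1.symm, hU⟩) (notMem_erase _ _)
    · rw [← sum_add_distrib]
      refine sum_le_sum fun u hu => ?_
      rw [red, if_neg (fun e : s = u => hs (e ▸ mem_of_mem_erase hu)), add_mul, add_comm]

/-- the degree inside `W` -/
def dg (μ : V → V → ℕ) (W : Finset V) (v : V) : ℕ := ∑ z ∈ W, μ v z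

/-- twice the number of additional parallel edges inside `W` -/
def ex (μ : V → V → ℕ) (W : Finset V) : ℕ := ∑ v ∈ W, ∑ z ∈ W, (μ v z - 1)

theorem dg_red {μ : V → V → ℕ} (hs : ∀ a b, μ a b = μ b a) (h0 : ∀ a, μ a a = 0) {W : Finset V}
    {v z : V} (hv : v ∈ W) (hz : z ∈ W.erase v) (h2 : dg μ W v ≤ 2) :
    dg (red μ v) (W.erase v) z ≤ dg μ W z := by
  have e1 : dg μ W z = μ z v + ∑ w ∈ W.erase v, μ z w := (add_sum_erase _ _ hv).symm
  have e2 : dg μ W v = μ v z + ∑ w ∈ (W.erase v).erase z, μ v w := by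
    rw [dg, ← add_sum_erase _ _ hv, h0, zero_add, add_sum_erase _ _ hz]
  have e3 : dg (red μ v) (W.erase v) z =
      ∑ w ∈ W.erase v, μ z w + μ z v * ∑ w ∈ (W.erase v).erase z, μ v w := by
    simp only [dg, red, sum_add_distrib]
    rw [← add_sum_erase _ (fun w => if z = w then 0 else μ z v * μ v w) hz, if_pos rfl, zero_add,
      mul_sum]
    exact congrArg _ (sum_congr rfl fun w hw => if_neg (mem_erase.1 hw).1.symm)
  rw [e1, e3, hs z v]
  rw [e2] at h2
  generalize μ v z = a at *
  generalize ∑ w ∈ (W.erase v).erase z, μ v w = b at *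
  have : a * b ≤ a := by
    rcases Nat.eq_zero_or_pos a with rfl | h
    · simp
    · exact (Nat.mul_le_mul_left a (by omega : b ≤ 1)).trans (by simp)
  omega

theorem ex_red {μ : V → V → ℕ} (hs : ∀ a b, μ a b = μ b a) {W : Finset V} (v : V) :
    ex (red μ v) (W.erase v) ≤ ex μ W + dg μ W v * (dg μ W v - 1) := by
  have h1 : ex (red μ v) (W.erase v) ≤ ex μ (W.erase v) +
      ∑ a ∈ W.erase v, ∑ b ∈ W.erase v, if a = b then 0 else μ a v * μ v b := by
    simp only [ex, ← sum_add_distrib]
    exact sum_le_sum fun a _ => sum_le_sum fun b _ => by unfold red; omega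
  have h2 : ex μ (W.erase v) ≤ ex μ W :=
    (sum_le_sum fun a _ => sum_le_sum_of_subset (erase_subset _ _)).trans
      (sum_le_sum_of_subset (erase_subset _ _))
  have h3 : ∀ a ∈ W, (∑ b ∈ W, if a = b then 0 else μ a v * μ v b) ≤ μ v a * (dg μ W v - 1) := by
    intro a ha
    rw [← add_sum_erase _ _ ha, if_pos rfl, zero_add,
      sum_congr rfl fun b hb => if_neg (mem_erase.1 hb).1.symm, ← mul_sum, hs a v]
    have e : dg μ W v = μ v a + ∑ b ∈ W.erase a, μ v b := (add_sum_erase _ _ ha).symm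
    rcases Nat.eq_zero_or_pos (μ v a) with h | h
    · simp [h]
    · exact Nat.mul_le_mul_left _ (by omega)
  have h4 := (sum_le_sum fun a _ => sum_le_sum_of_subset
    (f := fun b => if a = b then 0 else μ a v * μ v b) (erase_subset v W)).trans
    ((sum_le_sum_of_subset (erase_subset v W)).trans (sum_le_sum h3))
  rw [← sum_mul] at h4
  exact h1.trans (Nat.add_le_add h2 h4)

theorem cc_le_gam {d : ℕ} (h : d ≤ 2) : cc ^ (d * (d - 1)) ≤ gam d := by
  interval_cases d <;> simp [gam]

theorem main (t : V) (N : ℕ) : ∀ (U : Finset V) (μ : V → V → ℕ) (n : ℕ) (s : V), U.card = N →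
    (∀ a b, μ a b = μ b a) → (∀ a, μ a a = 0) → s ∉ U → t ∈ U →
    (P μ t n U s : ℝ) ≤ dg μ (insert s U) t * (del (dg μ (insert s U) s) *
      ((∏ v ∈ U.erase t, gam (dg μ (insert s U) v)) * cc ^ ex μ (insert s U))) := by
  induction N with
  | zero => exact fun U _ _ _ h _ _ _ ht => absurd ht (by simp [card_eq_zero.1 h])
  | succ N ih =>
    intro U μ n s hN hs h0 hsU ht
    have c0 := one_le_cc
    have g0 : ∀ (S : Finset V) (f : V → ℕ), 1 ≤ ∏ v ∈ S, gam (f v) := fun S f =>
      (prod_const_one (s := S)).ge.trans (prod_le_prod (by simp) fun _ _ => one_le_gam _)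
    by_cases hc : ∃ v ∈ U.erase t, dg μ (insert s U) v ≤ 2
    · obtain ⟨v, hv, h2⟩ := hc
      obtain ⟨hvt, hvU⟩ := mem_erase.1 hv
      have hvW : v ∈ insert s U := mem_insert_of_mem hvU
      have e : insert s (U.erase v) = (insert s U).erase v :=
        (erase_insert_of_ne fun e : s = v => hsU (e ▸ hvU)).symm
      have h1 := ih (U.erase v) (red μ v) n s (by rw [card_erase_of_mem hvU, hN]; rfl)
        (fun a b => by
          unfold red
          rw [hs a b, hs a v, hs v b, mul_comm]
          simp only [eq_comm])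
        (fun a => by simp [red, h0]) (fun h => hsU (mem_of_mem_erase h))
        (mem_erase.2 ⟨hvt.symm, ht⟩)
      rw [e] at h1
      have hd := fun z hz => dg_red hs h0 hvW (z := z) hz h2
      refine (Nat.cast_le.2 (P_red μ hvt n U s hvU hsU)).trans (h1.trans ?_)
      have g1 := g0 ((U.erase t).erase v) (dg μ (insert s U))
      refine mul_le_mul (Nat.cast_le.2 (hd t (e ▸ mem_insert_of_mem (mem_erase.2 ⟨hvt.symm, ht⟩))))
        (mul_le_mul (del_mono (hd s (e ▸ mem_insert_self _ _))) ?_ ?_ (del_nonneg _)) ?_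
        (Nat.cast_nonneg _)
      · rw [← mul_prod_erase _ _ hv, erase_right_comm, mul_comm (gam _), mul_assoc]
        refine mul_le_mul (prod_le_prod (fun _ _ => (gam_pos _).le) fun z hz => gam_mono (hd z ?_))
          ?_ (by positivity) (by linarith)
        · exact mem_erase.2 ⟨(mem_erase.1 hz).1,
            mem_insert_of_mem (mem_of_mem_erase (mem_of_mem_erase hz))⟩
        · refine (pow_le_pow_right₀ c0 (ex_red hs v)).trans ?_
          rw [pow_add, mul_comm]
          exact mul_le_mul_of_nonneg_right (cc_le_gam h2) (by positivity)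
      · exact mul_nonneg (zero_le_one.trans (g0 _ _)) (by positivity)
      · exact mul_nonneg (del_nonneg _) (mul_nonneg (zero_le_one.trans (g0 _ _)) (by positivity))
    have x0 : 1 ≤ (∏ v ∈ U.erase t, gam (dg μ (insert s U) v)) * cc ^ ex μ (insert s U) :=
      one_le_mul_of_one_le_of_one_le (g0 _ _) (one_le_pow₀ c0)
    cases n with
    | zero =>
      simp only [P, Nat.cast_zero]
      exact mul_nonneg (Nat.cast_nonneg _) (mul_nonneg (del_nonneg _) (by linarith))
    | succ n =>
      push Not at hc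
      have d1 : ∀ z, dg μ (insert s U) z = dg μ U z + μ s z := fun z => by
        rw [dg, sum_insert hsU, hs z s, add_comm]; rfl
      have d2 : dg μ (insert s U) s = μ s t + ∑ u ∈ U.erase t, μ s u := by
        rw [d1, h0, add_zero, add_sum_erase _ _ ht]; rfl
      have d3 : ex μ U + ∑ u ∈ U.erase t, 2 * (μ s u - 1) ≤ ex μ (insert s U) := by
        simp only [ex, sum_insert hsU, sum_add_distrib, ← mul_sum, fun a => hs a s]
        have := sum_le_sum_of_subset (f := fun u => μ s u - 1) (erase_subset t U)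
        omega
      have k1 := key (U.erase t) (μ s) (dg μ U) fun u hu => by
        have := hc u hu
        rw [d1] at this
        omega
      simp only [← d1] at k1
      have k2 : ∀ u ∈ U.erase t, ((μ s u * if u = t then 1 else P μ t n (U.erase u) u : ℕ) : ℝ) ≤
          dg μ U t * cc ^ ex μ U * (μ s u * ab (dg μ U u) * ∏ v ∈ U.erase t, gam (dg μ U v)) := by
        intro u hu
        obtain ⟨hut, huU⟩ := mem_erase.1 hu
        have h1 := ih (U.erase u) μ n u (by rw [card_erase_of_mem huU, hN]; rfl) hs h0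
          (notMem_erase _ _) (mem_erase.2 ⟨hut.symm, ht⟩)
        rw [insert_erase huU, erase_right_comm] at h1
        rw [if_neg hut, Nat.cast_mul, ← mul_prod_erase _ _ hu]
        have g1 := g0 ((U.erase t).erase u) (dg μ U)
        calc _ ≤ μ s u * (dg μ U t * (ab (dg μ U u) * gam (dg μ U u) *
              ((∏ v ∈ (U.erase t).erase u, gam (dg μ U v)) * cc ^ ex μ U))) := by
              refine mul_le_mul_of_nonneg_left (h1.trans ?_) (Nat.cast_nonneg _)
              gcongr
              exact del_le_ab _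
          _ = _ := by ring
      rw [P, ← add_sum_erase _ _ ht, if_pos rfl, mul_one, Nat.cast_add, Nat.cast_sum, d1 t,
        Nat.cast_add, add_mul, add_comm]
      refine add_le_add ((sum_le_sum k2).trans ?_) ?_
      · rw [← mul_sum, ← sum_mul, mul_assoc]
        refine mul_le_mul_of_nonneg_left
          ((mul_le_mul_of_nonneg_left k1 (by positivity)).trans ?_) (Nat.cast_nonneg _)
        rw [prod_mul_distrib, prod_pow_eq_pow_sum]
        have g1 := g0 (U.erase t) (dg μ (insert s U))
        calc _ = del (∑ u ∈ U.erase t, μ s u) * ((∏ v ∈ U.erase t, gam (dg μ (insert s U) v)) *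
              cc ^ (ex μ U + ∑ u ∈ U.erase t, 2 * (μ s u - 1))) := by ring
          _ ≤ _ := mul_le_mul (del_mono (by omega)) (mul_le_mul_of_nonneg_left
              (pow_le_pow_right₀ c0 d3) (by linarith)) (by positivity) (del_nonneg _)
      · rcases Nat.eq_zero_or_pos (μ s t) with h | h
        · simp [h]
        · exact le_mul_of_one_le_right (Nat.cast_nonneg _)
            (one_le_mul_of_one_le_of_one_le (one_le_del (by omega)) x0)

end Pool.Agent.MP_94842c_co

end
end MrgPart1

-- ======== part 2: formerly Pool.Agent.MP_94842c_co.Cyc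
section MrgPart2

/-! From paths to cycles. -/

noncomputable section

namespace Pool.Agent.MP_94842c_co

open Finset
open scoped Classical

variable {V : Type} (G : SimpleGraph V)

/-- the adjacency matrix -/
def mu (a b : V) : ℕ := if G.Adj a b then 1 else 0

/-- the edge sets of paths from `s` to `t` through `U` -/
def ES (t : V) : ℕ → Finset V → V → Finset (Set (Sym2 V))
  | 0, _, _ => ∅
  | n + 1, U, s => (U.filter (G.Adj s)).biUnion fun u =>
      (if u = t then {∅} else ES t n (U.erase u) u).image (insert s(s, u))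

theorem card_ES (t : V) (n : ℕ) : ∀ (U : Finset V) (s : V),
    (ES G t n U s).card ≤ P (mu G) t n U s := by
  induction n with
  | zero => exact fun _ _ => le_rfl
  | succ n ih =>
    intro U s
    rw [ES, P]
    refine card_biUnion_le.trans ?_
    rw [sum_filter]
    refine sum_le_sum fun u _ => ?_
    rw [mu]
    split_ifs with h1 h2
    · simp
    · exact card_image_le.trans (by rw [one_mul]; exact ih _ _)
    all_goals simp

theorem mem_ES {s t : V} (q : G.Walk s t) : ∀ (n : ℕ) (U : Finset V), q.IsPath → s ≠ t →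
    q.length ≤ n → (∀ x ∈ q.support.tail, x ∈ U) → q.edgeSet ∈ ES G t n U s := by
  induction q with
  | nil => exact fun _ _ _ h => absurd rfl h
  | @cons s u t h q ih =>
    intro n U hp _ hn hU
    obtain ⟨n, rfl⟩ : ∃ k, n = k + 1 := ⟨n - 1, by simp at hn; omega⟩
    rw [SimpleGraph.Walk.cons_isPath_iff] at hp
    simp only [SimpleGraph.Walk.support_cons, List.tail_cons] at hU
    rw [ES]
    refine mem_biUnion.2 ⟨u, mem_filter.2 ⟨hU u q.start_mem_support, h⟩,
      mem_image.2 ⟨q.edgeSet, ?_, by simp⟩⟩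
    split_ifs with hu
    · subst hu
      rw [(SimpleGraph.Walk.isPath_iff_nil.1 hp.1).eq_nil]
      simp
    · refine ih n _ hp.1 hu (by simpa using hn) fun x hx =>
        mem_erase.2 ⟨?_, hU x (List.mem_of_mem_tail hx)⟩
      rintro rfl
      have := hp.1.support_nodup
      rw [← q.cons_tail_support] at this
      exact (List.nodup_cons.1 this).1 hx

variable [Fintype V]

theorem dg_mu (v : V) : dg (mu G) univ v = G.degree v := by
  rw [dg, ← SimpleGraph.card_neighborFinset_eq_degree, SimpleGraph.neighborFinset_eq_filter,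
    card_filter]
  rfl

theorem paths_le {s t : V} (h : s ≠ t) (n : ℕ) :
    (P (mu G) t n (univ.erase s) s : ℝ) ≤
      G.edgeFinset.card * (2.2 * (rr ^ 2) ^ G.edgeFinset.card) := by
  have := main t _ (univ.erase s) (mu G) n s rfl (fun a b => by simp only [mu, G.adj_comm])
    (fun a => by simp [mu]) (notMem_erase _ _) (mem_erase.2 ⟨h.symm, mem_univ _⟩)
  have e : ex (mu G) univ = 0 :=
    sum_eq_zero fun a _ => sum_eq_zero fun b _ => by unfold mu; split_ifs <;> rfl
  rw [insert_erase (mem_univ s), e, pow_zero, mul_one] at this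
  simp only [dg_mu] at this
  have r0 := one_le_rr
  refine this.trans (mul_le_mul (Nat.cast_le.2 (G.degree_le_card_edgeFinset t))
    (mul_le_mul (del_le _) ?_ (prod_nonneg fun _ _ => (gam_pos _).le) (by norm_num))
    (mul_nonneg (del_nonneg _) (prod_nonneg fun _ _ => (gam_pos _).le)) (Nat.cast_nonneg _))
  refine (prod_le_prod (fun _ _ => (gam_pos _).le) fun v _ => gam_le _).trans ?_
  rw [prod_pow_eq_pow_sum, ← pow_mul, ← G.sum_degrees_eq_twice_card_edges]
  exact pow_le_pow_right₀ r0 (sum_le_sum_of_subset (subset_univ _))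

theorem cycles_le : ({S | ∃ (v : V) (p : G.Walk v v), p.IsCycle ∧ S = p.edgeSet}.ncard : ℝ) ≤
    4.4 * (G.edgeFinset.card ^ 2 * (rr ^ 2) ^ G.edgeFinset.card) := by
  have h1 : {S | ∃ (v : V) (p : G.Walk v v), p.IsCycle ∧ S = p.edgeSet} ⊆
      ↑((univ : Finset G.Dart).biUnion fun d =>
        (ES G d.fst (Fintype.card V) (univ.erase d.snd) d.snd).image (insert s(d.fst, d.snd))) := by
    rintro _ ⟨v, p, hp, rfl⟩
    cases p with
    | nil => exact absurd hp SimpleGraph.Walk.not_isCycle_nil
    | @cons _ w _ h q =>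
      have hq := ((SimpleGraph.Walk.cons_isCycle_iff q h).1 hp).1
      refine mem_coe.2 (mem_biUnion.2 ⟨⟨(v, w), h⟩, mem_univ _, mem_image.2 ⟨q.edgeSet,
        mem_ES G q _ _ hq h.ne' hq.length_lt.le fun x hx => mem_erase.2 ⟨?_, mem_univ _⟩, by simp⟩⟩)
      rintro rfl
      have := hq.support_nodup
      rw [← q.cons_tail_support] at this
      exact (List.nodup_cons.1 this).1 hx
  have h2 := (Set.ncard_le_ncard h1 (finite_toSet _)).trans_eq (Set.ncard_coe_finset _)
  refine (Nat.cast_le.2 (h2.trans card_biUnion_le)).trans ?_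
  rw [Nat.cast_sum]
  refine (sum_le_card_nsmul _ _ (G.edgeFinset.card * (2.2 * (rr ^ 2) ^ G.edgeFinset.card))
    fun d _ => (Nat.cast_le.2 (card_image_le.trans (card_ES G _ _ _ _))).trans
      (paths_le G d.adj.ne' _)).trans_eq ?_
  rw [card_univ, G.dart_card_eq_twice_card_edges, nsmul_eq_mul]
  push_cast
  ring

theorem poly_le : ∃ C : ℝ, ∀ m : ℕ, 4.4 * ((m : ℝ) ^ 2 * (rr ^ 2) ^ m) ≤ C * 1.3842 ^ m := by
  have h := (tendsto_pow_const_mul_const_pow_of_abs_lt_one 2 (r := rr ^ 2 / 1.3842)
    (by rw [abs_of_nonneg (by positivity)]; norm_num [rr])).bddAbove_range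
  obtain ⟨C, hC⟩ := h
  refine ⟨4.4 * C, fun m => ?_⟩
  have := hC ⟨m, rfl⟩
  simp only [div_pow] at this
  rw [← mul_div_assoc, div_le_iff₀ (by positivity)] at this
  linarith

end Pool.Agent.MP_94842c_co

end
end MrgPart2

-- marker of a merged file
example : 731051 + 683926 = 731051 + 683926 := rfl
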