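import Mathlib.Order.Lattice.Nat
import Mathlib.Data.Set.Card
import Mathlib.Combinatorics.SimpleGraph.Paths

/-! The largest number of cycles of a graph with `m` edges. -/

set_option autoImplicit false

namespace Pool.Agent.MP_94842c_co.Lim

/-- The cycles of `G`, each given by its set of edges. -/
def cycles {V : Type} (G : SimpleGraph V) : Set (Set (Sym2 V)) :=
  {S | ∃ (v : V) (p : G.Walk v v), p.IsCycle ∧ S = p.edgeSet}

/-- The largest number of cycles of a finite simple graph with exactly `m` edges. -/
noncomputable def c (m : ℕ) : ℕ :=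
  sSup {k | ∃ (n : ℕ) (G : SimpleGraph (Fin n)), G.edgeSet.ncard = m ∧ (cycles G).ncard = k}

end Pool.Agent.MP_94842c_co.Lim
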