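import Mathlib.CategoryTheory.Category.Preorder
import Mathlib.CategoryTheory.ObjectProperty.CompleteLattice
import Mathlib.Algebra.Order.Ring.Star
import Mathlib.Analysis.SpecialFunctions.Pow.Real
import Mathlib.Analysis.Subadditive
import Mathlib.CategoryTheory.Sums.Basic
import Mathlib.Order.CompletePartialOrder
import Pool.Agent.MP_94842c_co.LimDefs

/-! Paths between two vertices are supermultiplicative under series composition. -/

set_option autoImplicit false

noncomputable section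

namespace Pool.Agent.MP_94842c_co.Lim

open SimpleGraph Set Filter Topology

variable {V W : Type}

/-- the edge sets of the paths from `s` to `t` -/
def paths (G : SimpleGraph V) (s t : V) : Set (Set (Sym2 V)) :=
  {S | ∃ p : G.Walk s t, p.IsPath ∧ S = p.edgeSet}

/-- the largest number of paths between two vertices of a graph with at most `m` edges -/
def pp (m : ℕ) : ℕ := sSup {k | ∃ (n : ℕ) (G : SimpleGraph (Fin n)) (s t : Fin n),
  G.edgeSet.ncard ≤ m ∧ (paths G s t).ncard = k}

theorem fam_le [Finite V] {G : SimpleGraph V} {F : Set (Set (Sym2 V))}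
    (h : ∀ S ∈ F, S ⊆ G.edgeSet) : F.ncard ≤ 2 ^ G.edgeSet.ncard := by
  rw [← ncard_powerset]
  exact ncard_le_ncard h

theorem cycles_sub {G : SimpleGraph V} : ∀ S ∈ cycles G, S ⊆ G.edgeSet := by
  rintro _ ⟨v, p, -, rfl⟩ e he
  exact p.edges_subset_edgeSet he

theorem paths_sub {G : SimpleGraph V} {s t : V} : ∀ S ∈ paths G s t, S ⊆ G.edgeSet := by
  rintro _ ⟨p, -, rfl⟩ e he
  exact p.edges_subset_edgeSet he

theorem cycles_map [Finite W] {G : SimpleGraph V} {H : SimpleGraph W} (f : G →g H)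
    (hf : Function.Injective f) : (cycles G).ncard ≤ (cycles H).ncard := by
  refine ncard_le_ncard_of_injOn (fun S => Sym2.map f '' S) ?_
    (image_injective.2 (Sym2.map.injective hf)).injOn
  rintro _ ⟨v, p, hp, rfl⟩
  exact ⟨f v, p.map f, hp.map hf, (Walk.edgeSet_map ..).symm⟩

theorem paths_map [Finite W] {G : SimpleGraph V} {H : SimpleGraph W} (f : G →g H)
    (hf : Function.Injective f) (s t : V) : (paths G s t).ncard ≤ (paths H (f s) (f t)).ncard := by
  refine ncard_le_ncard_of_injOn (fun S => Sym2.map f '' S) ?_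
    (image_injective.2 (Sym2.map.injective hf)).injOn
  rintro _ ⟨p, hp, rfl⟩
  exact ⟨p.map f, hp.map hf, (Walk.edgeSet_map ..).symm⟩

theorem card_map (f : V ↪ W) (G : SimpleGraph V) :
    (G.map f).edgeSet.ncard = G.edgeSet.ncard := by
  rw [edgeSet_map]
  exact ncard_image_of_injective _ (Function.Embedding.injective _)

theorem le_c [Finite V] (G : SimpleGraph V) : (cycles G).ncard ≤ c G.edgeSet.ncard := by
  obtain ⟨n, ⟨e⟩⟩ := Finite.exists_equiv_fin V
  refine (cycles_map (Embedding.map e.toEmbedding G).toHom e.injective).trans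
    (le_csSup ⟨2 ^ G.edgeSet.ncard, ?_⟩ ⟨n, _, card_map _ G, rfl⟩)
  rintro _ ⟨n, H, h, rfl⟩
  exact h ▸ fam_le cycles_sub

theorem pp_bdd (m : ℕ) : ∀ k ∈ {k | ∃ (n : ℕ) (G : SimpleGraph (Fin n)) (s t : Fin n),
    G.edgeSet.ncard ≤ m ∧ (paths G s t).ncard = k}, k ≤ 2 ^ m := by
  rintro _ ⟨n, H, s, t, h, rfl⟩
  exact (fam_le paths_sub).trans (Nat.pow_le_pow_right two_pos h)

theorem le_pp [Finite V] (G : SimpleGraph V) (s t : V) {m : ℕ} (h : G.edgeSet.ncard ≤ m) :
    (paths G s t).ncard ≤ pp m := by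
  obtain ⟨n, ⟨e⟩⟩ := Finite.exists_equiv_fin V
  exact (paths_map (Embedding.map e.toEmbedding G).toHom e.injective s t).trans
    (le_csSup ⟨2 ^ m, pp_bdd m⟩ ⟨n, _, _, _, (card_map _ G).trans_le h, rfl⟩)

theorem pp_le (m : ℕ) : pp m ≤ 2 ^ m := csSup_le' (pp_bdd m)

theorem one_le_pp (m : ℕ) : 1 ≤ pp m :=
  le_trans ((ncard_pos (s := paths (⊥ : SimpleGraph Unit) () ()) (toFinite _)).2
    ⟨_, Walk.nil, Walk.IsPath.nil, rfl⟩) (le_pp (⊥ : SimpleGraph Unit) () () (by simp))

theorem pp_att (m : ℕ) : ∃ (n : ℕ) (G : SimpleGraph (Fin n)) (s t : Fin n),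
    G.edgeSet.ncard ≤ m ∧ (paths G s t).ncard = pp m :=
  Nat.sSup_mem (s := {k | ∃ (n : ℕ) (G : SimpleGraph (Fin n)) (s t : Fin n),
    G.edgeSet.ncard ≤ m ∧ (paths G s t).ncard = k}) ⟨_, 1, ⊥, 0, 0, by simp, rfl⟩ ⟨_, pp_bdd m⟩

/-- two graphs side by side, joined by one edge -/
def ser (G : SimpleGraph V) (H : SimpleGraph W) (t : V) (s : W) : SimpleGraph (V ⊕ W) :=
  G.map .inl ⊔ H.map .inr ⊔ fromEdgeSet {s(.inl t, .inr s)}

theorem ser_edges (G : SimpleGraph V) (H : SimpleGraph W) (t : V) (s : W) :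
    (ser G H t s).edgeSet = insert s(.inl t, .inr s)
      (Sym2.map .inl '' G.edgeSet ∪ Sym2.map .inr '' H.edgeSet) := by
  have h1 := edgeSet_map (Function.Embedding.inl (β := W)) G
  have h2 := edgeSet_map (Function.Embedding.inr (α := V)) H
  rw [ser, edgeSet_sup, edgeSet_sup, edgeSet_fromEdgeSet, union_comm]
  erw [h1, h2]
  rw [sdiff_eq_left.2 (by simp)]
  rfl

theorem lr_disj (S : Set (Sym2 V)) (T : Set (Sym2 W)) :
    Disjoint (Sym2.map (Sum.inl : V → V ⊕ W) '' S) (Sym2.map .inr '' T) := by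
  rw [Set.disjoint_left]
  rintro _ ⟨x, -, rfl⟩ ⟨y, -, h⟩
  induction x
  induction y
  simp at h

theorem lr_notMem (S : Set (Sym2 V)) (T : Set (Sym2 W)) (t : V) (s : W) :
    s(Sum.inl t, Sum.inr s) ∉ Sym2.map (Sum.inl : V → V ⊕ W) '' S ∪ Sym2.map .inr '' T := by
  rintro (⟨x, -, h⟩ | ⟨x, -, h⟩) <;> induction x <;> simp at h

theorem ser_card [Finite V] [Finite W] (G : SimpleGraph V) (H : SimpleGraph W) (t : V) (s : W) :
    (ser G H t s).edgeSet.ncard = G.edgeSet.ncard + H.edgeSet.ncard + 1 := by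
  rw [ser_edges, ncard_insert_of_notMem (lr_notMem _ _ _ _), ncard_union_eq (lr_disj _ _),
    ncard_image_of_injective _ (Sym2.map.injective Sum.inl_injective),
    ncard_image_of_injective _ (Sym2.map.injective Sum.inr_injective)]

/-- the left inclusion -/
def serL (G : SimpleGraph V) (H : SimpleGraph W) (t : V) (s : W) : G →g ser G H t s :=
  ⟨.inl, fun h => .inl (.inl ⟨by simpa using h.ne, _, _, h, rfl, rfl⟩)⟩

/-- the right inclusion -/
def serR (G : SimpleGraph V) (H : SimpleGraph W) (t : V) (s : W) : H →g ser G H t s :=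
  ⟨.inr, fun h => .inl (.inr ⟨by simpa using h.ne, _, _, h, rfl, rfl⟩)⟩

theorem ser_paths [Finite V] [Finite W] (G : SimpleGraph V) (H : SimpleGraph W) (a t : V)
    (s b : W) : (paths G a t).ncard * (paths H s b).ncard ≤
      (paths (ser G H t s) (.inl a) (.inr b)).ncard := by
  rw [← ncard_prod]
  refine ncard_le_ncard_of_injOn (fun S => insert s(.inl t, .inr s)
    (Sym2.map .inl '' S.1 ∪ Sym2.map .inr '' S.2)) ?_ ?_
  · rintro ⟨_, _⟩ ⟨⟨p, hp, rfl⟩, q, hq, rfl⟩
    have h : (ser G H t s).Adj (serL G H t s t) (serR G H t s s) := .inr (by simp [serL, serR])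
    let r : (ser G H t s).Walk (serL G H t s a) (serR G H t s b) :=
      (p.map (serL G H t s)).append (.cons h (q.map (serR G H t s)))
    refine ⟨r, (?_ : r.IsPath), (?_ : _ = r.edgeSet)⟩ <;> simp only [r]
    · rw [Walk.isPath_def, Walk.support_append, Walk.support_cons, List.tail_cons,
        Walk.support_map, Walk.support_map]
      refine List.Nodup.append (hp.support_nodup.map Sum.inl_injective)
        (hq.support_nodup.map Sum.inr_injective) fun x h1 h2 => ?_
      obtain ⟨y, -, rfl⟩ := List.mem_map.1 h1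
      obtain ⟨z, -, h3⟩ := List.mem_map.1 h2
      exact Sum.inr_ne_inl h3
    · rw [Walk.edgeSet_append, Walk.edgeSet_cons, Walk.edgeSet_map, Walk.edgeSet_map, union_insert]
      rfl
  · rintro ⟨S, T⟩ - ⟨S', T'⟩ - h
    have h1 := congrArg (· \ {s(Sum.inl t, Sum.inr s)}) h
    simp only [insert_sdiff_self_of_notMem (lr_notMem _ _ _ _)] at h1
    have h2 := congrArg (· \ Sym2.map .inr '' univ) h1
    have h3 := congrArg (· \ Sym2.map .inl '' univ) h1
    simp only [union_sdiff_distrib, sdiff_eq_left.2 (lr_disj _ _),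
      sdiff_eq_left.2 (lr_disj _ _).symm, sdiff_eq_empty.2 (image_mono (subset_univ _)),
      union_empty, empty_union] at h2 h3
    exact Prod.ext (image_injective.2 (Sym2.map.injective Sum.inl_injective) h2)
      (image_injective.2 (Sym2.map.injective Sum.inr_injective) h3)

theorem pp_mul (a b : ℕ) : pp a * pp b ≤ pp (a + b + 1) := by
  obtain ⟨n, G, s, t, h, h1⟩ := pp_att a
  obtain ⟨n', G', s', t', h', h1'⟩ := pp_att b
  rw [← h1, ← h1']
  exact (ser_paths G G' s t s' t').trans (le_pp _ _ _ (by rw [ser_card]; omega))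

theorem c_mono : Monotone c := monotone_nat_of_le_succ fun m => by
  refine csSup_le' ?_
  rintro _ ⟨n, G, h, rfl⟩
  rcases n with _ | n
  · rw [show cycles G = ∅ from eq_empty_of_forall_notMem fun _ ⟨v, _⟩ => v.elim0]
    simp
  · have := le_c (ser G (⊥ : SimpleGraph Unit) 0 ())
    rw [ser_card, h] at this
    exact (cycles_map (serL G ⊥ 0 ()) Sum.inl_injective).trans (by simpa using this)

theorem close [Finite V] (G : SimpleGraph V) {s t : V} (h : s ≠ t) (hn : ¬ G.Adj s t) :
    (paths G t s).ncard ≤ c (G.edgeSet.ncard + 1) := by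
  have h1 : (G ⊔ fromEdgeSet {s(s, t)}).edgeSet.ncard = G.edgeSet.ncard + 1 := by
    rw [edgeSet_sup, edgeSet_fromEdgeSet, sdiff_eq_left.2 (by simpa using h), union_singleton,
      ncard_insert_of_notMem (mt G.mem_edgeSet.1 hn)]
  rw [← h1]
  refine le_trans (ncard_le_ncard_of_injOn (insert s(s, t)) ?_ fun S hS T hT e => ?_) (le_c _)
  · rintro _ ⟨p, hp, rfl⟩
    have h2 : (G ⊔ fromEdgeSet {s(s, t)}).Adj s t := .inr (by simpa using h)
    refine ⟨s, .cons h2 (p.mapLe le_sup_left), (Walk.cons_isCycle_iff _ _).2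
      ⟨hp.mapLe _, fun h3 => hn (p.edges_subset_edgeSet (by simpa using h3))⟩, ?_⟩
    ext
    simp
  · rw [← insert_sdiff_self_of_notMem (a := s(s, t)) fun h => hn (paths_sub S hS h), e,
      insert_sdiff_self_of_notMem fun h => hn (paths_sub T hT h)]

theorem pp_le_c (m : ℕ) : pp m ≤ c (m + 3) := by
  obtain ⟨n, G, s, t, h, h1⟩ := pp_att m
  have h2 := ser_paths G (⊤ : SimpleGraph Bool) s t true false
  have h3 : 1 ≤ (paths (⊤ : SimpleGraph Bool) true false).ncard :=
    (ncard_pos (toFinite _)).2 ⟨_, .cons (by simp) .nil, by simp, rfl⟩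
  have h4 : (⊤ : SimpleGraph Bool).edgeSet.ncard ≤ 1 :=
    (ncard_le_ncard (t := {s(true, false)}) fun e he => by
      induction e with
      | h a b => cases a <;> cases b <;> simp_all).trans (by simp)
  have h5 := close (ser G (⊤ : SimpleGraph Bool) t true) (s := .inr false) (t := .inl s)
    (by simp) (by simp [ser, SimpleGraph.map, Relation.Map])
  rw [ser_card] at h5
  rw [← h1]
  exact ((Nat.le_mul_of_pos_right _ h3).trans h2).trans (h5.trans (c_mono (by omega)))

theorem split {G : SimpleGraph V} {u v : V} (p : G.Walk u v) {e : Sym2 V} (he : e ∈ p.edges) :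
    ∃ (a b : V) (h : G.Adj a b) (p1 : G.Walk u a) (p2 : G.Walk b v),
      p = p1.append (.cons h p2) ∧ e = s(a, b) := by
  induction p with
  | nil => simp at he
  | cons h p ih =>
    rcases List.mem_cons.1 he with rfl | he
    · exact ⟨_, _, h, .nil, p, rfl, rfl⟩
    · obtain ⟨a, b, h1, p1, p2, rfl, rfl⟩ := ih he
      exact ⟨a, b, h1, .cons h p1, p2, rfl, rfl⟩

theorem paths_symm {G : SimpleGraph V} {s t : V} : paths G s t ⊆ paths G t s := by
  rintro _ ⟨p, hp, rfl⟩
  exact ⟨p.reverse, hp.reverse, p.edgeSet_reverse.symm⟩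

theorem cycles_del (G : SimpleGraph V) (s t : V) : cycles G ⊆
    cycles (G.deleteEdges {s(s, t)}) ∪ insert s(s, t) '' paths (G.deleteEdges {s(s, t)}) s t := by
  rintro _ ⟨v, p, hp, rfl⟩
  by_cases he : s(s, t) ∈ p.edges
  · obtain ⟨a, b, h, p1, p2, rfl, e⟩ := split p he
    have h1 := hp.support_nodup
    have h2 := hp.isTrail.edges_nodup
    rw [Walk.tail_support_append, Walk.support_cons, List.tail_cons] at h1
    rw [Walk.edges_append, Walk.edges_cons, List.nodup_middle, List.nodup_cons,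
      List.mem_append] at h2
    have h3 : ∀ x ∈ (p2.append p1).edges, x ∈ (G.deleteEdges {s(s, t)}).edgeSet := fun x hx => by
      rw [edgeSet_deleteEdges]
      refine ⟨Walk.edges_subset_edgeSet _ hx, fun h4 => h2.1 ?_⟩
      rw [mem_singleton_iff.1 h4, e, Walk.edges_append, List.mem_append] at hx
      exact hx.symm
    have h4 : (p2.append p1).edgeSet ∈ paths (G.deleteEdges {s(s, t)}) b a :=
      ⟨(p2.append p1).transfer _ h3, Walk.IsPath.transfer _ (by
        rw [Walk.isPath_def, Walk.support_append]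
        exact List.nodup_append_comm.1 h1), (Walk.edgeSet_transfer ..).symm⟩
    refine .inr ⟨(p2.append p1).edgeSet, ?_, ?_⟩
    · rcases Sym2.eq_iff.1 e with ⟨rfl, rfl⟩ | ⟨rfl, rfl⟩
      · exact paths_symm h4
      · exact h4
    · rw [e, Walk.edgeSet_append, Walk.edgeSet_append, Walk.edgeSet_cons, union_insert, union_comm]
  · have h3 : ∀ x ∈ p.edges, x ∈ (G.deleteEdges {s(s, t)}).edgeSet := fun x hx => by
      rw [edgeSet_deleteEdges]
      exact ⟨p.edges_subset_edgeSet hx, fun h4 => he (mem_singleton_iff.1 h4 ▸ hx)⟩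
    exact .inl ⟨v, p.transfer _ h3, hp.transfer _, (Walk.edgeSet_transfer ..).symm⟩

theorem c_zero : c 0 = 0 := Nat.le_zero.1 <| csSup_le' <| by
  rintro _ ⟨n, G, h, rfl⟩
  rw [ncard_eq_zero] at h
  rw [Nat.le_zero, ncard_eq_zero, eq_empty_iff_forall_notMem]
  rintro _ ⟨v, p, hp, rfl⟩
  cases p with
  | nil => exact Walk.not_isCycle_nil hp
  | cons h1 _ => exact (h ▸ G.mem_edgeSet.2 h1 : _ ∈ (∅ : Set _))

theorem c_succ (m : ℕ) : c (m + 1) ≤ c m + pp m := by
  refine csSup_le' ?_
  rintro _ ⟨n, G, h, rfl⟩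
  obtain ⟨e, he⟩ : G.edgeSet.Nonempty := (ncard_pos (toFinite _)).1 (by omega)
  induction e with
  | h s t =>
    have h1 : (G.deleteEdges {s(s, t)}).edgeSet.ncard = m := by
      have := ncard_sdiff_singleton_add_one he
      rw [edgeSet_deleteEdges]
      omega
    refine (ncard_le_ncard (cycles_del G s t)).trans ((ncard_union_le _ _).trans ?_)
    exact add_le_add (h1 ▸ le_c _) ((ncard_image_le (toFinite _)).trans (le_pp _ s t h1.le))

theorem two_le_pp : 2 ≤ pp 3 := by
  refine le_trans ?_ (le_pp (⊤ : SimpleGraph (Fin 3)) 0 1 ?_)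
  · refine (one_lt_ncard (toFinite _)).2 ⟨_, ⟨.cons (by simp) .nil, by simp, rfl⟩, _,
      ⟨.cons (v := 2) (by simp) (.cons (by simp) .nil), by simp, rfl⟩, fun h => ?_⟩
    have := Set.ext_iff.1 h s(0, 1)
    simp at this
  · rw [← coe_edgeFinset, ncard_coe_finset, card_edgeFinset_top_eq_card_choose_two]
    simp

theorem main : ∃ κ : ℝ, 1 < κ ∧ Tendsto (fun m : ℕ => (c m : ℝ) ^ (1 / (m : ℝ))) atTop (𝓝 κ) ∧
    ∀ m, (c m : ℝ) ≤ κ ^ (m + 1) / (κ - 1) := by
  let u : ℕ → ℝ := fun m => if m = 0 then 0 else -Real.log (pp (m - 1))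
  have p0 : ∀ m, (0 : ℝ) < pp m := fun m => by exact_mod_cast one_le_pp m
  have us : ∀ m, u (m + 1) = -Real.log (pp m) := fun m => by simp [u]
  have hu : Subadditive u := fun a b => by
    rcases a with _ | a
    · simp [u]
    rcases b with _ | b
    · simp [u]
    rw [show a + 1 + (b + 1) = a + b + 1 + 1 by ring, us, us, us, ← neg_add, neg_le_neg_iff,
      ← Real.log_mul (p0 a).ne' (p0 b).ne']
    exact Real.log_le_log (mul_pos (p0 a) (p0 b)) (by exact_mod_cast pp_mul a b)
  have hb : BddBelow (range fun n => u n / n) := ⟨-Real.log 2, by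
    rintro _ ⟨n, rfl⟩
    have l2 := Real.log_nonneg one_le_two
    rcases n with _ | n
    · simpa using l2
    · have : Real.log (pp n) ≤ n * Real.log 2 := by
        rw [← Real.log_pow]
        exact Real.log_le_log (p0 n) (by exact_mod_cast pp_le n)
      simp only [us]
      rw [le_div_iff₀ (by positivity)]
      push_cast
      linarith⟩
  have hk : ∀ m, (pp m : ℝ) ≤ Real.exp (-hu.lim) ^ (m + 1) := fun m => by
    have := hu.lim_le_div hb m.succ_ne_zero
    rw [us, le_div_iff₀ (by positivity)] at this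
    rw [← Real.exp_nat_mul, ← Real.log_le_iff_le_exp (p0 m)]
    linarith
  set κ := Real.exp (-hu.lim) with hκ
  have k0 : 0 < κ := Real.exp_pos _
  have k1 : 1 < κ := by
    by_contra h
    have h1 := (hk 3).trans (pow_le_one₀ k0.le (not_lt.1 h))
    have h2 : (2 : ℝ) ≤ pp 3 := by exact_mod_cast two_le_pp
    linarith
  have k2 : 0 < κ - 1 := sub_pos.2 k1
  have hc : ∀ m, (c m : ℝ) ≤ κ ^ (m + 1) / (κ - 1) := fun m => by
    induction m with
    | zero => rw [c_zero, Nat.cast_zero]; positivity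
    | succ m ih =>
      have h1 : (c (m + 1) : ℝ) ≤ c m + pp m := by exact_mod_cast c_succ m
      refine h1.trans ((add_le_add ih (hk m)).trans_eq ?_)
      field_simp
      ring
  refine ⟨κ, k1, ?_, hc⟩
  have c0 : ∀ m, (0 : ℝ) < c (m + 3) := fun m => (p0 m).trans_le (by exact_mod_cast pp_le_c m)
  have i0 : Tendsto (fun m : ℕ => 1 / ((m + 3 : ℕ) : ℝ)) atTop (𝓝 0) :=
    (tendsto_add_atTop_iff_nat 3).2 tendsto_one_div_atTop_nhds_zero_nat
  have h1 : Tendsto (fun m : ℕ => Real.log (c (m + 3)) * (1 / ((m + 3 : ℕ) : ℝ))) atTop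
      (𝓝 (-hu.lim)) := by
    have t1 := ((tendsto_add_atTop_iff_nat 1).2 (hu.tendsto_lim hb)).neg.mul
      ((i0.const_mul 2).const_sub 1)
    have t2 := (i0.const_mul (Real.log (κ / (κ - 1)))).const_add (-hu.lim)
    simp only [mul_zero, sub_zero, mul_one, add_zero] at t1 t2
    refine tendsto_of_tendsto_of_tendsto_of_le_of_le t1 t2 (fun m => ?_) fun m => ?_
    · have := Real.log_le_log (p0 m) (show (pp m : ℝ) ≤ c (m + 3) by exact_mod_cast pp_le_c m)
      refine le_trans (le_of_eq ?_) (mul_le_mul_of_nonneg_right this (by positivity))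
      simp only [us]
      push_cast
      field_simp
      ring
    · have := Real.log_le_log (c0 m) (hc (m + 3))
      rw [pow_succ, mul_div_assoc, Real.log_mul (by positivity) (by positivity), Real.log_pow,
        show Real.log κ = -hu.lim from Real.log_exp _] at this
      refine (mul_le_mul_of_nonneg_right this (by positivity)).trans_eq ?_
      field_simp
  rw [← tendsto_add_atTop_iff_nat 3]
  exact ((Real.continuous_exp.tendsto _).comp h1).congr fun m =>
    (Real.rpow_def_of_pos (c0 m) _).symm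

end Pool.Agent.MP_94842c_co.Lim
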