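import Mathlib
import Pool.Agent.MP_94842c_co.Lim

/-! The growth rate of the largest number of cycles of a graph with `m` edges exists. -/

set_option autoImplicit false

namespace Pool.Agent.Results.MP_94842c_co.GrowthRate

open Pool.Agent.MP_94842c_co.Lim Filter Topology

theorem result : ∃ κ : ℝ, 1 < κ ∧
    Tendsto (fun m : ℕ => (c m : ℝ) ^ (1 / (m : ℝ))) atTop (𝓝 κ) ∧
    ∀ m : ℕ, (c m : ℝ) ≤ κ ^ (m + 1) / (κ - 1) := main

end Pool.Agent.Results.MP_94842c_co.GrowthRate
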